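import Mathlib

namespace Pool.Agent.H.MP_da2ee6_an

open MeasureTheory Set Metric Complex Filter Topology
open scoped Real ENNReal ComplexConjugate

lemma polar_int (g : ℂ → ℂ) (hg : Integrable g) (hm : Measurable g) :
    ∫ w, g w = ∫ r in Ioi (0 : ℝ), ∫ t in Ioo (-π) π, r • g (circleMap 0 r t) := by
  have hs : ∀ p : ℝ × ℝ, Complex.polarCoord.symm p = circleMap 0 p.1 p.2 := fun p => by
    simp [circleMap, Complex.exp_mul_I]
  have hc : Continuous fun p : ℝ × ℝ => circleMap 0 p.1 p.2 := by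
    unfold circleMap; fun_prop
  rw [← Complex.integral_comp_polarCoord_symm]
  simp_rw [hs]
  have hI : IntegrableOn (fun p : ℝ × ℝ => p.1 • g (circleMap 0 p.1 p.2))
      (Ioi (0 : ℝ) ×ˢ Ioo (-π) π) := by
    refine ⟨(measurable_fst.smul (hm.comp hc.measurable)).aestronglyMeasurable, ?_⟩
    have h1 := Complex.lintegral_comp_polarCoord_symm (fun w => ‖g w‖ₑ)
    simp_rw [hs] at h1
    have h2 : ∫⁻ w, ‖g w‖ₑ < ∞ := hg.2
    rw [← h1] at h2
    refine lt_of_eq_of_lt ?_ h2
    refine setLIntegral_congr_fun (measurableSet_Ioi.prod measurableSet_Ioo) fun p hp => ?_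
    simp only [enorm_smul, smul_eq_mul]
    rw [Real.enorm_eq_ofReal (le_of_lt hp.1)]
  exact setIntegral_prod _ hI

lemma circ_avg (g : ℂ → ℂ) (r : ℝ) :
    ∫ t in Ioo (-π) π, g (circleMap 0 r t) = (2 * π : ℝ) • Real.circleAverage g 0 r := by
  rw [Real.circleAverage_eq_integral_add (-π), smul_smul,
    mul_inv_cancel₀ (by positivity), one_smul, intervalIntegral.integral_comp_add_right
      (fun t => g (circleMap 0 r t)), ← integral_Ioc_eq_integral_Ioo,
    ← intervalIntegral.integral_of_le (by linarith [Real.pi_pos])]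
  congr 1 <;> ring

lemma circ_in {z : ℂ} {r : ℝ} (hr : 0 < r) (h : r < ‖z‖) :
    Real.circleAverage (fun w => (z - w)⁻¹) 0 r = z⁻¹ := by
  have : DiffContOnCl ℂ (fun w => (z - w)⁻¹) (ball 0 |r|) := by
    refine DifferentiableOn.diffContOnCl ?_
    refine ((differentiableOn_const z).sub differentiableOn_id).inv fun w hw => ?_
    rw [abs_of_pos hr, closure_ball _ hr.ne', mem_closedBall_zero_iff] at hw
    intro h0
    have : z = w := sub_eq_zero.1 h0
    rw [this] at h; linarith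
  simpa using this.circleAverage

lemma circ_out {z : ℂ} {r : ℝ} (h : ‖z‖ < r) :
    ∫ t in Ioo (-π) π, (z - circleMap 0 r t)⁻¹ = 0 := by
  have hr : 0 < r := (norm_nonneg _).trans_lt h
  have hne : ∀ w : ℂ, ‖w‖ ≤ r → conj z * w - r ^ 2 ≠ 0 := fun w hw h0 => by
    have h1 : conj z * w = r ^ 2 := sub_eq_zero.1 h0
    have h2 := congrArg norm h1
    rw [norm_mul, Complex.norm_conj, norm_pow, Complex.norm_real, Real.norm_of_nonneg hr.le] at h2
    nlinarith [norm_nonneg z, norm_nonneg w]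
  have : DiffContOnCl ℂ (fun w => w / (conj z * w - r ^ 2)) (ball 0 |r|) := by
    refine DifferentiableOn.diffContOnCl ?_
    refine differentiableOn_id.div (by fun_prop) fun w hw => hne w ?_
    rwa [abs_of_pos hr, closure_ball _ hr.ne', mem_closedBall_zero_iff] at hw
  have h1 := this.circleAverage
  have h2 := circ_avg (fun w => w / (conj z * w - r ^ 2)) r
  rw [h1] at h2
  simp only [zero_div, smul_zero] at h2
  have h3 : ∀ t, (z - circleMap 0 r t)⁻¹ =
      conj (circleMap 0 r t / (conj z * circleMap 0 r t - r ^ 2)) := fun t => by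
    set w := circleMap 0 r t with hw
    have hn : ‖w‖ = r := by rw [hw, norm_circleMap_zero, abs_of_pos hr]
    have hw0 : conj w ≠ 0 := by
      rw [map_ne_zero, ← norm_ne_zero_iff, hn]; exact hr.ne'
    have hww : w * conj w = (r : ℂ) ^ 2 := by
      rw [Complex.mul_conj, Complex.normSq_eq_norm_sq, hn]; push_cast; ring
    simp only [map_div₀, map_sub, map_mul, Complex.conj_conj, map_pow, Complex.conj_ofReal]
    rw [← hww, ← sub_mul, mul_comm, ← div_div, div_self hw0, one_div]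
  simp_rw [h3]
  rw [integral_conj, h2, map_zero]

lemma inv_int (z : ℂ) (ρ : ℝ) : IntegrableOn (fun w : ℂ => (z - w)⁻¹) (ball 0 ρ) := by
  have h1 : IntegrableOn (fun w : ℂ => w⁻¹) (ball 0 (‖z‖ + ρ)) := by
    refine integrableOn_ball_of_norm_le_rpow (C := 1) (α := 1) (by simp) (by simp)
      (.of_forall fun w => ?_) measurable_inv.aestronglyMeasurable
    simp [Real.rpow_neg_one]
  have h2 := (Measure.measurePreserving_sub_left volume z).integrableOn_comp_preimage
    (MeasurableEquiv.subLeft z).measurableEmbedding (f := fun w : ℂ => w⁻¹)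
    (s := ball 0 (‖z‖ + ρ))
  refine (h2.2 h1).mono_set fun w hw => ?_
  simp only [mem_preimage, mem_ball_zero_iff] at hw ⊢
  linarith [norm_sub_le z w]

lemma cauchy_ball {z : ℂ} {ρ : ℝ} (h : ‖z‖ < ρ) :
    ∫ w in ball (0 : ℂ) ρ, (z - w)⁻¹ = π * conj z := by
  rw [← integral_indicator measurableSet_ball, polar_int _
    ((integrable_indicator_iff measurableSet_ball).2 (inv_int z ρ))
    ((measurable_const.sub measurable_id).inv.indicator measurableSet_ball)]
  have h1 : ∀ᵐ r ∂(volume.restrict (Ioi (0 : ℝ))),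
      ∫ t in Ioo (-π) π, r • (ball (0 : ℂ) ρ).indicator (fun w => (z - w)⁻¹) (circleMap 0 r t) =
        (Ioo 0 ‖z‖).indicator (fun r : ℝ => r • ((2 * π : ℝ) • z⁻¹)) r := by
    filter_upwards [ae_restrict_mem measurableSet_Ioi,
      ae_restrict_of_ae ((countable_singleton ‖z‖).ae_notMem volume)] with r hr hz
    have hr0 : 0 < r := hr
    have hn : ∀ t, ‖circleMap 0 r t‖ = r := fun t => by rw [norm_circleMap_zero, abs_of_pos hr0]
    rw [integral_smul]
    by_cases hρ : r < ρ
    · have : ∀ t, (ball (0 : ℂ) ρ).indicator (fun w => (z - w)⁻¹) (circleMap 0 r t) =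
          (z - circleMap 0 r t)⁻¹ := fun t =>
        indicator_of_mem (by rw [mem_ball_zero_iff, hn]; exact hρ) _
      simp_rw [this]
      rcases lt_or_gt_of_ne (show r ≠ ‖z‖ from hz) with h2 | h2
      · rw [circ_avg (fun w => (z - w)⁻¹), circ_in hr0 h2, indicator_of_mem (s := Ioo 0 ‖z‖) ⟨hr0, h2⟩]
      · rw [circ_out h2, smul_zero, indicator_of_notMem fun h3 => absurd h3.2 h2.not_gt]
    · have : ∀ t, (ball (0 : ℂ) ρ).indicator (fun w => (z - w)⁻¹) (circleMap 0 r t) = 0 := fun t =>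
        indicator_of_notMem (by rw [mem_ball_zero_iff, hn]; exact hρ) _
      simp_rw [this]
      rw [integral_zero, smul_zero, indicator_of_notMem fun h3 => hρ (h3.2.trans h)]
  rw [integral_congr_ae h1, integral_indicator measurableSet_Ioo,
    Measure.restrict_restrict measurableSet_Ioo, inter_eq_left.2 Ioo_subset_Ioi_self,
    integral_smul_const, ← integral_Ioc_eq_integral_Ioo,
    ← intervalIntegral.integral_of_le (norm_nonneg _), integral_id]
  rcases eq_or_ne z 0 with rfl | hz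
  · simp
  · have : conj z = (‖z‖ : ℂ) ^ 2 * z⁻¹ := by
      rw [eq_mul_inv_iff_mul_eq₀ hz, mul_comm, Complex.mul_conj, Complex.normSq_eq_norm_sq]
      push_cast; ring
    rw [this, Complex.real_smul, Complex.real_smul]
    push_cast; ring

lemma inv_bd {z : ℂ} {R : ℝ} (h : ‖z‖ < R) :
    ∫ w in ball (0 : ℂ) R, ‖(z - w)⁻¹‖ ≤ ∫ w in ball (0 : ℂ) (2 * R), ‖w⁻¹‖ := by
  have h1 : IntegrableOn (fun w : ℂ => ‖w⁻¹‖) (ball 0 (2 * R)) := by
    simpa [IntegrableOn] using (inv_int 0 (2 * R)).norm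
  have e := (MeasurableEquiv.subLeft z).measurableEmbedding
  have m := Measure.measurePreserving_sub_left (volume : Measure ℂ) z
  rw [← m.setIntegral_preimage_emb e (fun w : ℂ => ‖w⁻¹‖)]
  refine setIntegral_mono_set ((m.integrableOn_comp_preimage e).2 h1)
    (.of_forall fun w => norm_nonneg _) (LE.le.eventuallyLE fun w hw => ?_)
  simp only [mem_preimage, mem_ball_zero_iff] at hw ⊢
  linarith [norm_sub_le z w]

def Good {K : Type*} [MeasurableSpace K] (μ : Measure K) (F : K → ℂ) (l : ℂ) : Prop :=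
  l ≠ 0 ∧ Integrable (fun k => (F k - l)⁻¹) μ ∧ ∀ᵐ k ∂μ, F k ≠ l

lemma iso_count {K : Type*} [MeasurableSpace K] (μ : Measure K) [IsFiniteMeasure μ] (F : K → ℂ)
    (hF : Measurable F) {δ : ℝ} (hδ : 0 < δ) :
    {l | Good μ F l ∧ ∀ l', Good μ F l' → l ≠ l' →
      δ ≤ ∫ k, ‖(F k - l)⁻¹ - (F k - l')⁻¹‖ ∂μ}.Countable := by
  classical
  have hm : ∀ l : ℂ, Measurable fun z : ℂ => (z - l)⁻¹ := fun l =>
    (measurable_id.sub measurable_const).inv
  have hi : ∀ l, Good μ F l → Integrable (fun z : ℂ => (z - l)⁻¹) (μ.map F) := fun l h =>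
    (integrable_map_measure (hm l).aestronglyMeasurable hF.aemeasurable).2 h.2.1
  let κ : ℂ → Lp ℂ 1 (μ.map F) := fun l =>
    if h : Integrable (fun z : ℂ => (z - l)⁻¹) (μ.map F) then h.toL1 _ else 0
  have hd : ∀ l l', Good μ F l → Good μ F l' →
      dist (κ l) (κ l') = ∫ k, ‖(F k - l)⁻¹ - (F k - l')⁻¹‖ ∂μ := fun l l' h h' => by
    simp only [κ, dif_pos (hi l h), dif_pos (hi l' h')]
    rw [dist_eq_norm, ← Integrable.toL1_sub, L1.norm_of_fun_eq_integral_norm,
      integral_map hF.aemeasurable ((hm l).sub (hm l')).norm.aestronglyMeasurable]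
    rfl
  have : Fact ((1 : ℝ≥0∞) ≠ ∞) := ⟨ENNReal.one_ne_top⟩
  have : SecondCountableTopology (Lp ℂ 1 (μ.map F)) := Lp.SecondCountableTopology
  refine Set.PairwiseDisjoint.countable_of_isOpen (s := fun l => ball (κ l) (δ / 2))
    (fun l hl l' hl' hne => ball_disjoint_ball ?_) (fun _ _ => isOpen_ball)
    fun _ _ => nonempty_ball.2 (half_pos hδ)
  rw [hd l l' hl.1 hl'.1, add_halves]
  exact hl.2 l' hl'.1 hne

theorem key {K : Type*} [MeasurableSpace K] (μ : Measure K) [IsFiniteMeasure μ] (F β : K → ℂ)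
    (hF : Measurable F) (hβ : Measurable β) {R C D : ℝ} (hR : ∀ k, ‖F k‖ < R)
    (hC : ∀ k, ‖β k‖ ≤ C) (hD : 0 ≤ D)
    (H : ∀ l l', Good μ F l → Good μ F l' → l ≠ l' →
      ‖∫ k, β k * (F k - l)⁻¹ ∂μ‖ ≤ D * ∫ k, ‖(F k - l)⁻¹ - (F k - l')⁻¹‖ ∂μ) :
    ∫ k, β k * conj (F k) ∂μ = 0 := by
  set ν : Measure ℂ := volume.restrict (ball 0 R)
  have hm : Measurable fun p : K × ℂ => (F p.1 - p.2)⁻¹ :=
    ((hF.comp measurable_fst).sub measurable_snd).inv
  have h1 : Integrable (fun p : K × ℂ => (F p.1 - p.2)⁻¹) (μ.prod ν) := by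
    refine (integrable_prod_iff hm.aestronglyMeasurable).2 ⟨.of_forall fun k => inv_int (F k) R, ?_⟩
    refine Integrable.of_bound hm.norm.stronglyMeasurable.integral_prod_right'.aestronglyMeasurable
      (∫ w in ball (0 : ℂ) (2 * R), ‖w⁻¹‖) (.of_forall fun k => ?_)
    rw [Real.norm_of_nonneg (integral_nonneg fun _ => norm_nonneg _)]
    exact inv_bd (hR k)
  have h2 : Integrable (fun p : K × ℂ => β p.1 * (F p.1 - p.2)⁻¹) (μ.prod ν) :=
    h1.bdd_mul (hβ.comp measurable_fst).aestronglyMeasurable (.of_forall fun p => hC p.1)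
  have h3 : ∀ᵐ l ∂ν, ∫ k, β k * (F k - l)⁻¹ ∂μ = 0 := by
    have c1 := (countable_iUnion fun n : ℕ =>
      iso_count μ F hF (Nat.one_div_pos_of_nat (α := ℝ) (n := n))).ae_notMem ν
    filter_upwards [h1.prod_left_ae, c1, (countable_singleton (0 : ℂ)).ae_notMem ν,
      (Measure.countable_meas_level_set_pos (μ := μ) hF).ae_notMem ν] with l a1 a2 a3 a4
    have hg : Good μ F l := ⟨a3, a1, by
      simp only [not_lt, nonpos_iff_eq_zero] at a4
      rw [ae_iff]; simpa using a4⟩
    refine norm_le_zero_iff.1 (ge_of_tendsto' (by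
      simpa using (tendsto_one_div_add_atTop_nhds_zero_nat (𝕜 := ℝ)).const_mul D) fun n => ?_)
    simp only [mem_iUnion, mem_ofPred_eq, not_exists, not_and, not_forall] at a2
    obtain ⟨l', g', hne, hlt⟩ := a2 n hg
    refine (H l l' hg g' hne).trans (mul_le_mul_of_nonneg_left ?_ hD)
    simpa using (not_le.1 hlt).le
  have h4 := integral_integral_swap (f := fun k l => β k * (F k - l)⁻¹) h2
  rw [integral_congr_ae h3, integral_zero] at h4
  simp_rw [integral_const_mul, ν, cauchy_ball (hR _), mul_left_comm (β _), integral_const_mul] at h4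
  exact (mul_eq_zero.1 h4).resolve_left (by exact_mod_cast Real.pi_ne_zero)

end Pool.Agent.H.MP_da2ee6_an
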