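import Pool.Agent.H.MP_da2ee6_an.A

namespace Pool.Agent.H.MP_da2ee6_an

open MeasureTheory Set Metric Filter Topology CompactlySupported WeakDual
open scoped ComplexConjugate

theorem posrep {K Z : Type*} [TopologicalSpace K] [CompactSpace K] [T2Space K]
    [MeasurableSpace K] [BorelSpace K]
    [NormedAddCommGroup Z] [NormedSpace ℝ Z] (j : Z →ₗ[ℝ] C(K, ℝ))
    (hs : ∀ z, ‖z‖ ≤ ‖j z ⊔ 0‖) (hi : Function.Injective j) (φ : Z →L[ℝ] ℝ) :
    ∃ μ : Measure K, IsFiniteMeasure μ ∧ ∀ z, φ z = ∫ k, j z k ∂μ := by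
  let e := LinearEquiv.ofInjective j hi
  obtain ⟨g, g1, g2⟩ := exists_extension_of_le_sublinear
    (⟨LinearMap.range j, φ.toLinearMap.comp e.symm.toLinearMap⟩ : C(K, ℝ) →ₗ.[ℝ] ℝ)
    (fun f => ‖φ‖ * ‖f ⊔ 0‖) (fun c hc f => by
      have : (c • f) ⊔ 0 = c • (f ⊔ 0) := by
        ext k
        simp [mul_max_of_nonneg _ _ hc.le]
      rw [this, norm_smul, Real.norm_of_nonneg hc.le]; ring) (fun f f' => by
      rw [← mul_add]
      refine mul_le_mul_of_nonneg_left ((ContinuousMap.norm_le _ (by positivity)).2 fun k => ?_)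
        (norm_nonneg _)
      have a1 := (f ⊔ 0).norm_coe_le_norm k
      have a2 := (f' ⊔ 0).norm_coe_le_norm k
      simp only [ContinuousMap.sup_apply, ContinuousMap.zero_apply, ContinuousMap.add_apply,
        Real.norm_eq_abs] at a1 a2 ⊢
      rw [abs_of_nonneg (le_max_right _ _)] at a1 a2 ⊢
      exact max_le (add_le_add (le_of_max_le_left a1) (le_of_max_le_left a2)) (by positivity))
    (fun x => by
      obtain ⟨z, rfl⟩ := e.surjective x
      change φ (e.symm (e z)) ≤ ‖φ‖ * ‖j z ⊔ 0‖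
      rw [e.symm_apply_apply]
      exact (le_abs_self _).trans ((φ.le_opNorm z).trans
        (mul_le_mul_of_nonneg_left (hs z) (norm_nonneg _))))
  have g3 : ∀ z, g (j z) = φ z := fun z => (g1 (e z)).trans (congrArg φ (e.symm_apply_apply z))
  let Λ : C_c(K, ℝ) →ₚ[ℝ] ℝ := PositiveLinearMap.mk₀
    { toFun := fun f => g f.toContinuousMap
      map_add' := fun a b => g.map_add _ _
      map_smul' := fun c a => g.map_smul _ _ } fun f hf => by
      have a1 := g2 (-f.toContinuousMap)
      have a2 : -f.toContinuousMap ⊔ 0 = 0 := sup_eq_right.2 fun k => neg_nonpos.2 (hf k)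
      rw [a2, norm_zero, mul_zero, map_neg] at a1
      exact neg_nonpos.1 a1
  refine ⟨RealRMK.rieszMeasure Λ, inferInstance, fun z => ?_⟩
  rw [← g3]
  exact (RealRMK.integral_rieszMeasure Λ
      (CompactlySupportedContinuousMap.continuousMapEquiv (j z))).symm

theorem crep {Y : Type*} [TopologicalSpace Y] [CompactSpace Y] [T2Space Y]
    [MeasurableSpace (Y × Circle)] [BorelSpace (Y × Circle)] (Λ : C(Y, ℂ) →L[ℂ] ℂ) :
    ∃ μ : Measure (Y × Circle), IsFiniteMeasure μ ∧
      ∀ u, Λ u = ∫ k, (k.2 : ℂ) * u k.1 ∂μ := by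
  let j : C(Y, ℂ) →ₗ[ℝ] C(Y × Circle, ℝ) :=
    { toFun := fun u => ⟨fun k => ((k.2 : ℂ) * u k.1).re, by fun_prop⟩
      map_add' := fun u v => by ext k; simp [mul_add]
      map_smul' := fun c u => by ext k; simp; ring }
  have hs : ∀ u, ‖u‖ ≤ ‖j u ⊔ 0‖ := fun u => by
    refine (ContinuousMap.norm_le _ (norm_nonneg _)).2 fun y => ?_
    obtain ⟨c, hc, h⟩ := Complex.exists_norm_eq_mul_self (u y)
    let c' : Circle := ⟨c, by simpa [Submonoid.unitSphere] using hc⟩
    have h1 : j u (y, c') = ‖u y‖ := by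
      change (c * u y).re = _
      rw [← h, Complex.ofReal_re]
    refine le_trans ?_ ((j u ⊔ 0).norm_coe_le_norm (y, c'))
    rw [ContinuousMap.sup_apply, h1]
    exact (le_max_left _ _).trans (le_abs_self _)
  have hi : Function.Injective j := (injective_iff_map_eq_zero j).2 fun u hu => by
    have := hs u
    rw [hu, sup_idem, norm_zero] at this
    exact norm_le_zero_iff.1 this
  obtain ⟨μ, hμ, h⟩ := posrep j hs hi (Complex.reCLM.comp (Λ.restrictScalars ℝ))
  refine ⟨μ, hμ, fun u => ?_⟩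
  have hI : Integrable (fun k : Y × Circle => (k.2 : ℂ) * u k.1) μ :=
    (show Continuous fun k : Y × Circle => (k.2 : ℂ) * u k.1 by fun_prop).integrable_of_hasCompactSupport
      (HasCompactSupport.of_compactSpace _)
  apply Complex.ext
  · exact (h u).trans (integral_re hI)
  · have h1 := h ((-Complex.I) • u)
    have h2 : ∀ k : Y × Circle, j ((-Complex.I) • u) k = ((k.2 : ℂ) * u k.1).im := fun k => by
      simp [j]
    simp_rw [h2] at h1
    refine Eq.trans ?_ (h1.trans (integral_im hI))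
    simp

section
variable {B : Type*} [NormedCommRing B] [NormedAlgebra ℂ B] [CompleteSpace B]

noncomputable def G : B →L[ℂ] C(characterSpace ℂ B, ℂ) :=
  (gelfandTransform ℂ B).toLinearMap.mkContinuous ‖(1 : B)‖ fun a =>
    (ContinuousMap.norm_le _ (by positivity)).2 fun ψ => by
      rw [mul_comm]; exact AlgHom.norm_apply_le_self_mul_norm_one ψ a

@[simp] lemma G_apply (a : B) (ψ : characterSpace ℂ B) : G a ψ = ψ a := rfl

def SRm (M : Ideal B) : Prop :=
  ∀ J : Ideal B, J ≤ M → IsClosed (J : Set B) → ∀ x ∈ M, ∀ c : ℝ, 0 ≤ c →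
    (∀ ψ : characterSpace ℂ B, (∀ y ∈ J, ψ y = 0) → ‖ψ x‖ ≤ c) →
    ∃ y ∈ J, ∀ ψ : characterSpace ℂ B, ‖ψ (x + y)‖ ≤ c + 1

theorem ann {M : Ideal B} (hM : IsClosed (M : Set B)) (H : SRm M)
    (Λ : C(characterSpace ℂ B, ℂ) →L[ℂ] ℂ) (hΛ : ∀ m ∈ M, Λ (G m) = 0) (a : B) {b : B}
    (hb : b ∈ M) : Λ (star (G a) * G b) = 0 := by
  borelize (characterSpace ℂ B × Circle)
  obtain ⟨μ, hμ, h⟩ := crep Λ
  let F : characterSpace ℂ B × Circle → ℂ := fun k => G a k.1
  have cF : Continuous F := by fun_prop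
  have hn : ∀ (u : C(characterSpace ℂ B, ℂ)) (k : characterSpace ℂ B × Circle),
      ‖(k.2 : ℂ) * u k.1‖ ≤ ‖u‖ := fun u k => by
    rw [norm_mul, Circle.norm_coe, one_mul]; exact u.norm_coe_le_norm _
  have hc : ∀ u : C(characterSpace ℂ B, ℂ),
      Measurable fun k : characterSpace ℂ B × Circle => (k.2 : ℂ) * u k.1 := fun u =>
    (show Continuous fun k : characterSpace ℂ B × Circle => (k.2 : ℂ) * u k.1 by
      fun_prop).measurable
  have := key μ F (fun k => (k.2 : ℂ) * G b k.1) cF.measurable (hc _) (R := ‖G a‖ + 1)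
    (fun k => ((G a).norm_coe_le_norm _).trans_lt (lt_add_one _)) (hn _)
    (D := ‖G b‖ + 1) (by positivity) fun l l' g g' hne => ?_
  · rw [h, ← this]
    congr 1; ext k
    simp [F]; ring
  have hne' : l - l' ≠ 0 := sub_ne_zero.2 hne
  let w : characterSpace ℂ B × Circle → ℂ := fun k => (F k - l)⁻¹ - (F k - l')⁻¹
  have hw : Integrable w μ := g.2.1.sub g'.2.1
  have hI : ∀ u : C(characterSpace ℂ B, ℂ), Integrable (fun k => (k.2 : ℂ) * u k.1 * w k) μ :=
    fun u => hw.bdd_mul (hc u).aestronglyMeasurable (.of_forall (hn u))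
  have hb' : ∀ u : C(characterSpace ℂ B, ℂ),
      ‖∫ k, (k.2 : ℂ) * u k.1 * w k ∂μ‖ ≤ (∫ k, ‖w k‖ ∂μ) * ‖u‖ := fun u => by
    rw [← integral_mul_const]
    refine norm_integral_le_of_norm_le (hw.norm.mul_const _) (.of_forall fun k => ?_)
    rw [norm_mul, mul_comm]
    exact mul_le_mul_of_nonneg_left (hn u k) (norm_nonneg _)
  let L : C(characterSpace ℂ B, ℂ) →L[ℂ] ℂ := LinearMap.mkContinuous
    { toFun := fun u => ∫ k, (k.2 : ℂ) * u k.1 * w k ∂μ
      map_add' := fun u v => by
        rw [← integral_add (hI u) (hI v)]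
        congr 1; ext k; simp; ring
      map_smul' := fun c u => by
        rw [RingHom.id_apply, smul_eq_mul, ← integral_const_mul]
        congr 1; ext k; simp; ring } _ hb'
  let r : B := (a - algebraMap ℂ B l) * (a - algebraMap ℂ B l')
  let J : Ideal B := (Ideal.span {r} * M).closure
  have hJ : ∀ y ∈ J, L (G y) = 0 := fun y hy => by
    refine closure_minimal (t := {y | L (G y) = 0}) (fun y hy => ?_)
      (isClosed_eq (by fun_prop) continuous_const) hy
    obtain ⟨m, hm, rfl⟩ := Ideal.mem_span_singleton_mul.1 hy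
    have h1 := hΛ m hm
    rw [h] at h1
    change ∫ k, (k.2 : ℂ) * G (r * m) k.1 * w k ∂μ = 0
    rw [← mul_zero (l - l'), ← h1, ← integral_const_mul]
    refine integral_congr_ae ?_
    filter_upwards [g.2.2, g'.2.2] with k h2 h3
    have h4 := sub_ne_zero.2 h2
    have h5 := sub_ne_zero.2 h3
    simp only [F, G_apply] at h4 h5
    simp only [G_apply, r, w, F, map_mul, map_sub, AlgHomClass.commutes, Algebra.algebraMap_self,
      RingHom.id_apply]
    field_simp
    ring
  let x : B := (l - l')⁻¹ • ((a - algebraMap ℂ B l') * b)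
  obtain ⟨y, hy, h1⟩ := H J (closure_minimal Ideal.mul_le_right hM) isClosed_closure x
    (M.smul_of_tower_mem _ (M.mul_mem_left _ hb)) ‖G b‖ (norm_nonneg _) fun ψ hψ => by
      have h2 := hψ (r * b) (subset_closure (Ideal.mem_span_singleton_mul.2 ⟨b, hb, rfl⟩))
      simp only [r, map_mul, map_sub, AlgHomClass.commutes, Algebra.algebraMap_self,
        RingHom.id_apply, mul_eq_zero] at h2
      simp only [x, map_smul, map_mul, map_sub, AlgHomClass.commutes, Algebra.algebraMap_self,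
        RingHom.id_apply, smul_eq_mul]
      rcases h2 with (h2 | h2) | h2
      · rw [sub_eq_zero.1 h2, ← mul_assoc, inv_mul_cancel₀ hne', one_mul]
        exact (G b).norm_coe_le_norm ψ
      · simp [h2]
      · simp [h2]
  have h2 : L (G (x + y)) = ∫ k, (k.2 : ℂ) * G b k.1 * (F k - l)⁻¹ ∂μ := by
    rw [map_add, map_add, hJ y hy, add_zero]
    change ∫ k, (k.2 : ℂ) * G x k.1 * w k ∂μ = _
    refine integral_congr_ae ?_
    filter_upwards [g.2.2, g'.2.2] with k h2 h3
    have h4 := sub_ne_zero.2 h2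
    have h5 := sub_ne_zero.2 h3
    simp only [F, G_apply] at h4 h5
    rw [G_apply]
    simp only [G_apply, x, w, F, map_mul, map_sub, map_smul, AlgHomClass.commutes,
      Algebra.algebraMap_self, RingHom.id_apply, smul_eq_mul]
    field_simp
    ring
  rw [← h2, mul_comm]
  exact (hb' _).trans (mul_le_mul_of_nonneg_left ((ContinuousMap.norm_le _ (by positivity)).2 h1)
    (integral_nonneg fun _ => norm_nonneg _))

theorem core {M : Ideal B} (hM : IsClosed (M : Set B)) (H : SRm M)
    (g : C(characterSpace ℂ B, ℂ)) (hg : ∀ ψ : characterSpace ℂ B, (∀ m ∈ M, ψ m = 0) → g ψ = 0) :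
    g ∈ closure (G '' (M : Set B)) := by
  let D : Submodule ℂ C(characterSpace ℂ B, ℂ) :=
    ((M.restrictScalars ℂ).map (G (B := B)).toLinearMap).topologicalClosure
  have hD : IsClosed (D : Set C(characterSpace ℂ B, ℂ)) := Submodule.isClosed_topologicalClosure _
  have hG : ∀ m ∈ M, G m ∈ D := fun m hm => subset_closure ⟨m, hm, rfl⟩
  have ext : ∀ s : C(characterSpace ℂ B, ℂ), (∀ m ∈ M, s * G m ∈ D) → ∀ d ∈ D, s * d ∈ D :=
    fun s hs d hd => closure_minimal (t := {d | s * d ∈ D})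
      (by rintro _ ⟨m, hm, rfl⟩; exact hs m hm) (hD.preimage (by fun_prop)) hd
  have st : ∀ a : B, ∀ m ∈ M, star (G a) * G m ∈ D := fun a m hm => by
    by_contra hn
    obtain ⟨f, u, h1, h2⟩ := RCLike.geometric_hahn_banach_point_closed (𝕜 := ℂ)
      (D.restrictScalars ℝ).convex hD hn
    have h0 : ∀ d ∈ D, f d = 0 := fun d hd => by
      by_contra hne
      have := h2 _ (D.smul_mem (((u - 1 : ℝ) : ℂ) / f d) hd)
      rw [map_smul, smul_eq_mul, div_mul_cancel₀ _ hne] at this
      simp at this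
      linarith
    have h3 := h2 0 D.zero_mem
    rw [ann hM H f (fun m hm => h0 _ (hG m hm)) a hm] at h1
    simp only [map_zero] at h1 h3
    linarith
  let S : StarSubalgebra ℂ C(characterSpace ℂ B, ℂ) :=
    { carrier := {s | ∀ d ∈ D, s * d ∈ D ∧ star s * d ∈ D}
      mul_mem' := fun {s t} hs ht d hd => by
        rw [star_mul, mul_assoc, mul_assoc]
        exact ⟨(hs _ (ht d hd).1).1, (ht _ (hs d hd).2).2⟩
      add_mem' := fun {s t} hs ht d hd => by
        rw [star_add, add_mul, add_mul]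
        exact ⟨D.add_mem (hs d hd).1 (ht d hd).1, D.add_mem (hs d hd).2 (ht d hd).2⟩
      algebraMap_mem' := fun c d hd => by
        rw [Algebra.algebraMap_eq_smul_one, star_smul, star_one, smul_mul_assoc, smul_mul_assoc,
          one_mul]
        exact ⟨D.smul_mem _ hd, D.smul_mem _ hd⟩
      star_mem' := fun {s} hs d hd => by
        rw [star_star]; exact (hs d hd).symm }
  have hS : IsClosed (S : Set C(characterSpace ℂ B, ℂ)) := by
    change IsClosed {s | ∀ d ∈ D, s * d ∈ D ∧ star s * d ∈ D}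
    simp only [ofPred_forall, ofPred_and]
    exact isClosed_iInter fun d => isClosed_iInter fun _ =>
      (hD.preimage (by fun_prop)).inter (hD.preimage (by fun_prop))
  have hsep : S.SeparatesPoints := fun φ ψ hne => by
    obtain ⟨a, ha⟩ := DFunLike.ne_iff.1 hne
    refine ⟨G a, ⟨G a, fun d hd => ⟨ext _ (fun m hm => ?_) d hd, ext _ (st a) d hd⟩, rfl⟩, ha⟩
    have : G a * G m = G (a * m) := by ext ψ; simp
    rw [this]; exact hG _ (M.mul_mem_left _ hm)
  have hT := ContinuousMap.starSubalgebra_topologicalClosure_eq_top_of_separatesPoints S hsep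
  have hall : ∀ s, s ∈ S := fun s => by
    have : s ∈ S.topologicalClosure := by rw [hT]; trivial
    exact closure_minimal subset_rfl hS this
  let I : Ideal C(characterSpace ℂ B, ℂ) :=
    { carrier := D
      add_mem' := D.add_mem
      zero_mem' := D.zero_mem
      smul_mem' := fun s d hd => (hall s d hd).1 }
  have h1 := ContinuousMap.idealOfSet_ofIdeal_isClosed (I := I) hD
  have h2 : g ∈ I := by
    rw [← h1, ContinuousMap.mem_idealOfSet]
    intro ψ hψ
    refine hg ψ fun m hm => ?_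
    rw [mem_compl_iff, ContinuousMap.notMem_setOfIdeal] at hψ
    exact hψ (f := G m) (hG m hm)
  exact h2

lemma spec_q {U : Type*} [CommRing U] [Algebra ℂ U] (e : B ≃ₐ[ℂ] U) (J : Ideal B) (x : B) {z : ℂ}
    (hz : z ∈ spectrum ℂ (Ideal.Quotient.mk (J.comap e.symm) (e x))) :
    ∃ ψ : characterSpace ℂ B, (∀ y ∈ J, ψ y = 0) ∧ ψ x = z := by
  by_cases hT : J ⊔ Ideal.span {algebraMap ℂ B z - x} = ⊤
  · exfalso
    obtain ⟨j, hj, v, hv, h⟩ := Submodule.mem_sup.1 ((Ideal.eq_top_iff_one _).1 hT)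
    obtain ⟨u, rfl⟩ := Ideal.mem_span_singleton'.1 hv
    refine spectrum.mem_iff.1 hz (IsUnit.of_mul_eq_one_right
      (Ideal.Quotient.mk (J.comap e.symm) (e u)) ?_)
    have h1 := congrArg (fun t => Ideal.Quotient.mk (J.comap e.symm) (e t)) h
    have h2 : Ideal.Quotient.mk (J.comap e.symm) (e j) = 0 :=
      Ideal.Quotient.eq_zero_iff_mem.2 (by simpa using hj)
    simpa [h2] using h1
  · obtain ⟨m, hm, h⟩ := Ideal.exists_le_maximal _ hT
    refine ⟨m.toCharacterSpace, fun y hy =>
      Ideal.toCharacterSpace_apply_eq_zero_of_mem m (h (le_sup_left (a := J) hy)), ?_⟩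
    have := Ideal.toCharacterSpace_apply_eq_zero_of_mem m
      (h (le_sup_right (a := J) (Ideal.mem_span_singleton_self _)))
    rw [map_sub, AlgHomClass.commutes, sub_eq_zero] at this
    exact this.symm

end

end Pool.Agent.H.MP_da2ee6_an
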