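import Pool.Agent.H.MP_da2ee6_an.B

namespace Pool.Agent.H.MP_da2ee6_an

open Set Metric Filter Topology WeakDual
open scoped ZeroAtInfty ENNReal

variable {A : Type*} [NonUnitalNormedCommRing A] [NormedSpace ℂ A] [IsScalarTower ℂ A A]
  [SMulCommClass ℂ A A]

noncomputable instance ncr : NormedCommRing (WithLp 1 (Unitization ℂ A)) :=
  { WithLp.instUnitizationNormedRing with
    mul_comm := fun x y => (WithLp.unitizationAlgEquiv (𝕜 := ℂ) (A := A) ℂ).injective (by
      rw [map_mul, map_mul, mul_comm]) }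

noncomputable def ι : A →L[ℂ] WithLp 1 (Unitization ℂ A) :=
  LinearMap.mkContinuous
    ((WithLp.linearEquiv 1 ℂ (Unitization ℂ A)).symm.toLinearMap.comp (Unitization.inrHom ℂ ℂ A)) 1
    fun a => by rw [one_mul]; exact (WithLp.unitization_norm_inr a).le

noncomputable abbrev ee : WithLp 1 (Unitization ℂ A) ≃ₐ[ℂ] Unitization ℂ A :=
  WithLp.unitizationAlgEquiv ℂ

lemma ee_ι (a : A) : ee (ι a) = (a : Unitization ℂ A) := rfl

lemma ι_mul (a b : A) : ι (a * b) = ι a * ι b :=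
  ee.injective (by rw [map_mul ee, ee_ι, ee_ι, ee_ι, Unitization.inr_mul])

noncomputable def MM : Ideal (WithLp 1 (Unitization ℂ A)) :=
  RingHom.ker ((Unitization.fstHom ℂ A).comp (ee (A := A)).toAlgHom)

lemma mem_MM {x : WithLp 1 (Unitization ℂ A)} : x ∈ MM ↔ (ee x).fst = 0 := Iff.rfl

lemma eq_ι {x : WithLp 1 (Unitization ℂ A)} (h : x ∈ MM) : ι (ee x).snd = x :=
  ee.injective (by
    rw [ee_ι]
    ext
    · exact (mem_MM.1 h).symm
    · rfl)

lemma MM_closed : IsClosed (MM (A := A) : Set (WithLp 1 (Unitization ℂ A))) := by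
  let L : WithLp 1 (Unitization ℂ A) →L[ℂ] ℂ :=
    ((Unitization.fstHom ℂ A).comp (ee (A := A)).toAlgHom).toLinearMap.mkContinuous 1 fun x => by
      rw [one_mul, WithLp.unitization_norm_def]
      exact le_add_of_nonneg_right (norm_nonneg _)
  exact isClosed_eq L.continuous continuous_const

variable [CompleteSpace A]

theorem main
    (SR : ∀ J : Ideal (Unitization ℂ A), (∀ u ∈ J, u.fst = 0) →
      IsClosed {y : A | (y : Unitization ℂ A) ∈ J} → (∃ x : A, (x : Unitization ℂ A) ∉ J) →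
      ∀ x : A, spectralRadius ℂ (Ideal.Quotient.mk J (x : Unitization ℂ A)) =
        ⨅ (y : A) (_ : (y : Unitization ℂ A) ∈ J),
          spectralRadius ℂ ((x + y : A) : Unitization ℂ A))
    (g : C₀(characterSpace ℂ A, ℂ)) (ε : ℝ) (hε : 0 < ε) :
    ∃ a : A, ∀ φ : characterSpace ℂ A, ‖φ a - g φ‖ ≤ ε := by
  classical
  have H : SRm (MM (A := A)) := fun J hJ hc x hx c h0 h => by
    obtain ⟨x, rfl⟩ : ∃ a, ι a = x := ⟨_, eq_ι hx⟩
    by_cases hp : ∃ a : A, (a : Unitization ℂ A) ∉ J.comap ee.symm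
    · have h1 := SR (J.comap ee.symm) (fun u hu => hJ hu) (hc.preimage ι.continuous) hp x
      have h2 : spectralRadius ℂ (Ideal.Quotient.mk (J.comap ee.symm) (x : Unitization ℂ A)) <
          ENNReal.ofReal (c + 1) := by
        refine lt_of_le_of_lt (iSup₂_le fun z hz => ?_)
          ((ENNReal.ofReal_lt_ofReal_iff (by linarith)).2 (lt_add_one c))
        obtain ⟨ψ, h3, rfl⟩ := spec_q ee J (ι x) hz
        rw [← enorm_eq_nnnorm, ← ofReal_norm]
        exact ENNReal.ofReal_le_ofReal (h ψ h3)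
      rw [h1] at h2
      obtain ⟨y, h2⟩ := iInf_lt_iff.1 h2
      obtain ⟨hy, h2⟩ := iInf_lt_iff.1 h2
      refine ⟨ι y, hy, fun ψ => ?_⟩
      have h3 : ψ (ι x + ι y) ∈ spectrum ℂ ((x + y : A) : Unitization ℂ A) := by
        rw [← ee_ι, AlgEquiv.spectrum_eq, map_add ι]
        exact AlgHom.apply_mem_spectrum ψ _
      have h4 := (le_iSup₂ (f := fun k (_ : k ∈ spectrum ℂ ((x + y : A) : Unitization ℂ A)) =>
        (‖k‖₊ : ℝ≥0∞)) _ h3).trans_lt h2
      rw [← enorm_eq_nnnorm, ← ofReal_norm, ENNReal.ofReal_lt_ofReal_iff (by linarith)] at h4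
      exact h4.le
    · refine ⟨-ι x, J.neg_mem (not_not.1 (not_exists.1 hp x)), fun ψ => ?_⟩
      rw [add_neg_cancel, map_zero, norm_zero]; linarith
  let ρ : characterSpace ℂ (WithLp 1 (Unitization ℂ A)) → WeakDual ℂ A := fun ψ =>
    (CharacterSpace.toCLM ψ).comp ι
  have hρ : ∀ ψ a, ρ ψ a = ψ (ι a) := fun _ _ => rfl
  have cρ : Continuous ρ := WeakDual.continuous_of_continuous_eval fun a => (G (ι a)).continuous
  have mρ : ∀ ψ, ρ ψ ≠ 0 → ρ ψ ∈ characterSpace ℂ A := fun ψ h =>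
    ⟨h, fun a b => by rw [hρ, hρ, hρ, ι_mul, map_mul]⟩
  let t : characterSpace ℂ (WithLp 1 (Unitization ℂ A)) → ℂ := fun ψ =>
    if h : ρ ψ ≠ 0 then g ⟨ρ ψ, mρ ψ h⟩ else 0
  have ct : Continuous t := by
    refine continuous_iff_continuousAt.2 fun ψ₀ => ?_
    by_cases h0 : ρ ψ₀ ≠ 0
    · have ho : IsOpen {ψ | ρ ψ ≠ 0} := isOpen_ne_fun cρ continuous_const
      refine ContinuousOn.continuousAt ?_ (ho.mem_nhds h0)
      rw [continuousOn_iff_continuous_domRestrict]
      have : {ψ | ρ ψ ≠ 0}.domRestrict t = fun ψ => g ⟨ρ ψ.1, mρ ψ.1 ψ.2⟩ :=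
        funext fun ψ => dif_pos ψ.2
      rw [this]
      exact (map_continuous g).comp ((cρ.comp continuous_subtype_val).subtype_mk _)
    · refine Metric.tendsto_nhds.2 fun δ hδ => ?_
      obtain ⟨K, hK, h⟩ := mem_cocompact.1 (Metric.tendsto_nhds.1 (zero_at_infty g) δ hδ)
      have h1 : IsClosed (Subtype.val '' K) := (hK.image continuous_subtype_val).isClosed
      have h2 : ψ₀ ∈ ρ ⁻¹' (Subtype.val '' K)ᶜ := by
        rintro ⟨φ, -, h2⟩
        exact h0 (h2 ▸ φ.2.1)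
      filter_upwards [(h1.isOpen_compl.preimage cρ).mem_nhds h2] with ψ hψ
      simp only [t, dif_neg h0]
      split_ifs with h3
      · exact h fun h4 => hψ ⟨_, h4, rfl⟩
      · simpa using hδ
  have := core MM_closed H ⟨t, ct⟩ fun ψ hψ =>
    dif_neg (not_not.2 (DFunLike.ext _ _ fun a => hψ (ι a) (mem_MM.2 rfl)))
  obtain ⟨_, ⟨m, hm, rfl⟩, h⟩ := Metric.mem_closure_iff.1 this ε hε
  refine ⟨(ee m).snd, fun φ => ?_⟩
  let ψ : characterSpace ℂ (WithLp 1 (Unitization ℂ A)) := CharacterSpace.equivAlgHom.symm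
    ((Unitization.lift (CharacterSpace.toNonUnitalAlgHom φ)).comp ee.toAlgHom)
  have h1 : ρ ψ = φ := DFunLike.ext _ _ fun a => by
    change Unitization.lift (CharacterSpace.toNonUnitalAlgHom φ) (a : Unitization ℂ A) = _
    simp
  have h2 : t ψ = g φ := by
    have : ρ ψ ≠ 0 := h1 ▸ φ.2.1
    simp only [t, dif_pos this]
    congr 1
    exact Subtype.ext h1
  have h3 : G m ψ = φ (ee m).snd := by
    rw [G_apply, ← eq_ι hm, ← hρ, h1, eq_ι hm]; rfl
  rw [← h2, ← h3, norm_sub_rev, ← dist_eq_norm]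
  exact (ContinuousMap.dist_apply_le_dist (f := ⟨t, ct⟩) (g := G m) ψ).trans h.le

end Pool.Agent.H.MP_da2ee6_an
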